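import Pool.Agent.Helper75.PZ.GoalsB

/-!
# Packet SNW of project PZ (MP_acfd82_an): snowflakes of the line
-/

namespace Pool.Agent.Helper74.PZ

open Finset Filter Topology Metric

/-- The key real estimate: a chain of `N` steps. -/
lemma chain_bound (g : ℝ → ℝ) (s s' C : ℝ) (h0 : 0 < s) (hC : 0 ≤ C)
    (h : ∀ u ∈ Set.Icc (0 : ℝ) 1, ∀ v ∈ Set.Icc (0 : ℝ) 1, |g u - g v| ^ s ≤ C * |u - v| ^ s')
    (N : ℕ) (hN : 0 < N) : |g 0 - g 1| ≤ C ^ (1 / s) * (N : ℝ) ^ (1 - s' / s) := by
  have hN' : (0 : ℝ) < N := by exact_mod_cast hN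
  have step : ∀ i < N, dist (g ((i : ℝ) / N)) (g (((i + 1 : ℕ) : ℝ) / N)) ≤
      C ^ (1 / s) * (N : ℝ) ^ (-(s' / s)) := by
    intro i hi
    have hi' : ((i : ℝ) + 1) ≤ N := by exact_mod_cast hi
    have hi0 : (0 : ℝ) ≤ i := Nat.cast_nonneg i
    have m1 : (i : ℝ) / N ∈ Set.Icc (0 : ℝ) 1 := by
      refine ⟨by positivity, ?_⟩
      rw [div_le_one hN']
      linarith
    have m2 : (((i + 1 : ℕ) : ℝ)) / N ∈ Set.Icc (0 : ℝ) 1 := by
      refine ⟨by positivity, ?_⟩
      rw [div_le_one hN']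
      push_cast
      exact hi'
    have h1 := h _ m1 _ m2
    have e1 : |(i : ℝ) / N - ((i + 1 : ℕ) : ℝ) / N| = (N : ℝ)⁻¹ := by
      have : (i : ℝ) / N - ((i + 1 : ℕ) : ℝ) / N = -((N : ℝ)⁻¹) := by
        push_cast
        field_simp
        ring
      rw [this, abs_neg, abs_of_pos (inv_pos.mpr hN')]
    rw [e1] at h1
    have h2 : (|g ((i : ℝ) / N) - g (((i + 1 : ℕ) : ℝ) / N)| ^ s) ^ (1 / s) ≤
        (C * ((N : ℝ)⁻¹) ^ s') ^ (1 / s) :=
      Real.rpow_le_rpow (by positivity) h1 (by positivity)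
    rw [← Real.rpow_mul (abs_nonneg _), mul_one_div_cancel h0.ne', Real.rpow_one] at h2
    rw [Real.dist_eq]
    refine h2.trans (le_of_eq ?_)
    rw [Real.mul_rpow hC (by positivity), ← Real.rpow_mul (by positivity)]
    congr 1
    rw [Real.inv_rpow hN'.le, ← Real.rpow_neg hN'.le]
    congr 1
    ring
  have tot := dist_le_range_sum_dist (fun i : ℕ => g ((i : ℝ) / N)) N
  have tot2 : ∑ i ∈ range N, dist (g ((i : ℝ) / N)) (g (((i + 1 : ℕ) : ℝ) / N)) ≤
      ∑ i ∈ range N, C ^ (1 / s) * (N : ℝ) ^ (-(s' / s)) :=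
    Finset.sum_le_sum fun i hi => step i (Finset.mem_range.mp hi)
  have e0 : g (((0 : ℕ) : ℝ) / N) = g 0 := by simp
  have e1 : g (((N : ℕ) : ℝ) / N) = g 1 := by rw [div_self hN'.ne']
  have : dist (g 0) (g 1) ≤ ∑ i ∈ range N, C ^ (1 / s) * (N : ℝ) ^ (-(s' / s)) := by
    have t := tot.trans tot2
    simp only [e0, e1] at t
    exact t
  rw [Real.dist_eq] at this
  refine this.trans (le_of_eq ?_)
  rw [Finset.sum_const, Finset.card_range, nsmul_eq_mul, sub_eq_add_neg, Real.rpow_add hN',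
    Real.rpow_one]
  ring

lemma curve_const (g : ℝ → ℝ) (s s' C : ℝ) (h0 : 0 < s) (hs : s < s')
    (h : ∀ u ∈ Set.Icc (0 : ℝ) 1, ∀ v ∈ Set.Icc (0 : ℝ) 1, |g u - g v| ^ s ≤ C * |u - v| ^ s') :
    g 0 = g 1 := by
  have h' : ∀ u ∈ Set.Icc (0 : ℝ) 1, ∀ v ∈ Set.Icc (0 : ℝ) 1,
      |g u - g v| ^ s ≤ |C| * |u - v| ^ s' := by
    intro u hu v hv
    refine (h u hu v hv).trans ?_
    exact mul_le_mul_of_nonneg_right (le_abs_self C) (by positivity)
  have key := chain_bound g s s' |C| h0 (abs_nonneg C) h'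
  have hlt : 0 < s' / s - 1 := by
    have : 1 < s' / s := (one_lt_div h0).mpr hs
    linarith
  have lim : Tendsto (fun N : ℕ => |C| ^ (1 / s) * (N : ℝ) ^ (1 - s' / s)) atTop (𝓝 0) := by
    have l1 : Tendsto (fun N : ℕ => (N : ℝ) ^ (-(s' / s - 1))) atTop (𝓝 0) :=
      (tendsto_rpow_neg_atTop hlt).comp tendsto_natCast_atTop_atTop
    have l2 := l1.const_mul (|C| ^ (1 / s))
    rw [mul_zero] at l2
    refine l2.congr fun N => ?_
    rw [neg_sub]
  have hle : |g 0 - g 1| ≤ 0 := by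
    refine ge_of_tendsto lim ?_
    filter_upwards [eventually_gt_atTop 0] with N hN
    exact key N hN
  have := abs_nonpos_iff.mp hle
  linarith

theorem snw : Pool.Agent.Helper75.PZ.P_SNW := by
  intro s h0 h1
  refine ⟨?_, ?_, ?_⟩
  · exact (Snowflaking.uniformEquiv (X := ℝ) (hα₀ := h0) (hα₁ := h1)).completeSpace_iff.mpr
      inferInstance
  · intro u v huv
    have hne : u.ofSnowflaking ≠ v.ofSnowflaking := fun h =>
      huv (Snowflaking.ofSnowflaking.injective h)
    set a : ℝ := u.ofSnowflaking with ha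
    set b : ℝ := v.ofSnowflaking with hb
    have hab : 0 < |a - b| := abs_pos.mpr (sub_ne_zero.mpr hne)
    refine ⟨Snowflaking.toSnowflaking ((a + b) / 2), ?_, ?_, ?_⟩
    · intro h
      have h' := congrArg Snowflaking.ofSnowflaking h
      rw [Snowflaking.ofSnowflaking_toSnowflaking, ← ha] at h'
      apply hne
      linarith
    · intro h
      have h' := congrArg Snowflaking.ofSnowflaking h
      rw [Snowflaking.ofSnowflaking_toSnowflaking, ← hb] at h'
      apply hne
      linarith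
    · have d1 : dist u (Snowflaking.toSnowflaking ((a + b) / 2)) = (|a - b| / 2) ^ s := by
        change |a - (a + b) / 2| ^ s = _
        congr 1
        rw [show a - (a + b) / 2 = (a - b) / 2 by ring, abs_div, abs_two]
      have d2 : dist v (Snowflaking.toSnowflaking ((a + b) / 2)) = (|a - b| / 2) ^ s := by
        change |b - (a + b) / 2| ^ s = _
        congr 1
        rw [show b - (a + b) / 2 = -((a - b) / 2) by ring, abs_neg, abs_div,
          abs_two]
      have d3 : dist u v = |a - b| ^ s := rfl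
      have d4 : |a - b| ^ s = 2 ^ s * (|a - b| / 2) ^ s := by
        rw [← Real.mul_rpow (by norm_num) (by positivity)]
        congr 1
        ring
      unfold Pool.Agent.Helper75.PZ.gp
      rw [d1, d2, d3, d4, min_self]
      have e : (2 : ℝ) ^ (s - 1) = 2 ^ s / 2 := by
        rw [Real.rpow_sub (by norm_num), Real.rpow_one]
      rw [e]
      apply le_of_eq
      ring
  · intro γ s' C hs h
    apply Snowflaking.ofSnowflaking.injective
    exact curve_const (fun u => (γ u).ofSnowflaking) s s' C h0 hs h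

end Pool.Agent.Helper74.PZ
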